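import Mathlib

set_option autoImplicit false

/-!
# Fourteenth powers of the six axes of the icosahedron
-/

namespace Pool.Agent.V1163.Conic

lemma icoA (u s t : ℂ) (hu : u ^ 5 = 1) : (u * s ^ 2 + s * t - u ^ 4 * t ^ 2) ^ 2 =
    -2 * u ^ 4 * s * t ^ 3 + u ^ 3 * t ^ 4 + u ^ 2 * s ^ 4 + 2 * u * s ^ 3 * t - s ^ 2 * t ^ 2 := by
  linear_combination (u ^ 3 * t ^ 4 - 2 * s ^ 2 * t ^ 2) * hu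

lemma icoB (u s t : ℂ) (hu : u ^ 5 = 1) : (u * s ^ 2 + s * t - u ^ 4 * t ^ 2) ^ 3 =
    u ^ 3 * s ^ 6 + 3 * u ^ 3 * s * t ^ 5 + 3 * u ^ 2 * s ^ 5 * t - u ^ 2 * t ^ 6 - 5 * s ^ 3 * t ^ 3 := by
  rw [pow_succ, icoA u s t hu]
  linear_combination (2 * u ^ 3 * s * t ^ 5 - u ^ 2 * t ^ 6 - u * s ^ 4 * t ^ 2 - 4 * s ^ 3 * t ^ 3) * hu

lemma icoC (u s t : ℂ) (hu : u ^ 5 = 1) : (u * s ^ 2 + s * t - u ^ 4 * t ^ 2) ^ 4 =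
    u ^ 4 * s ^ 8 + 8 * u ^ 4 * s ^ 3 * t ^ 5 + 4 * u ^ 3 * s ^ 7 * t + 2 * u ^ 3 * s ^ 2 * t ^ 6 + 2 * u ^ 2 * s ^ 6 * t ^ 2 - 4 * u ^ 2 * s * t ^ 7 - 8 * u * s ^ 5 * t ^ 3 + u * t ^ 8 - 5 * s ^ 4 * t ^ 4 := by
  rw [show (u * s ^ 2 + s * t - u ^ 4 * t ^ 2) ^ 4 =
    ((u * s ^ 2 + s * t - u ^ 4 * t ^ 2) ^ 2) * ((u * s ^ 2 + s * t - u ^ 4 * t ^ 2) ^ 2) by ring,
    icoA u s t hu]
  linear_combination (4 * u ^ 3 * s ^ 2 * t ^ 6 - 4 * u ^ 2 * s * t ^ 7 - 4 * u * s ^ 5 * t ^ 3 + u * t ^ 8 - 6 * s ^ 4 * t ^ 4) * hu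

lemma icoD (u s t : ℂ) (hu : u ^ 5 = 1) : (u * s ^ 2 + s * t - u ^ 4 * t ^ 2) ^ 7 =
    -7 * u ^ 4 * s ^ 11 * t ^ 3 - 77 * u ^ 4 * s ^ 6 * t ^ 8 + 7 * u ^ 4 * s * t ^ 13 - 49 * u ^ 3 * s ^ 10 * t ^ 4 - 14 * u ^ 3 * s ^ 5 * t ^ 9 - u ^ 3 * t ^ 14 + u ^ 2 * s ^ 14 - 14 * u ^ 2 * s ^ 9 * t ^ 5 + 49 * u ^ 2 * s ^ 4 * t ^ 10 + 7 * u * s ^ 13 * t + 77 * u * s ^ 8 * t ^ 6 - 7 * u * s ^ 3 * t ^ 11 + 14 * s ^ 12 * t ^ 2 + 29 * s ^ 7 * t ^ 7 - 14 * s ^ 2 * t ^ 12 := by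
  rw [show (u * s ^ 2 + s * t - u ^ 4 * t ^ 2) ^ 7 =
    ((u * s ^ 2 + s * t - u ^ 4 * t ^ 2) ^ 4) * ((u * s ^ 2 + s * t - u ^ 4 * t ^ 2) ^ 3) by
      rw [← pow_add], icoC u s t hu, icoB u s t hu]
  linear_combination (u ^ 2 * s ^ 14 + 11 * u ^ 2 * s ^ 9 * t ^ 5 + 24 * u ^ 2 * s ^ 4 * t ^ 10 + 7 * u * s ^ 13 * t + 37 * u * s ^ 8 * t ^ 6 - 2 * u * s ^ 3 * t ^ 11 + 14 * s ^ 12 * t ^ 2 + 4 * s ^ 7 * t ^ 7 - 14 * s ^ 2 * t ^ 12) * hu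

/-- coefficient -/
def g1 (s t : ℂ) : ℂ :=
  182 * s ^ 25 * t ^ 3 + 5005 * s ^ 20 * t ^ 8 + 6930 * s ^ 15 * t ^ 13 - 10010 * s ^ 10 * t ^ 18 + 910 * s ^ 5 * t ^ 23 + t ^ 28

/-- coefficient -/
def g2 (s t : ℂ) : ℂ :=
  77 * s ^ 26 * t ^ 2 + 1430 * s ^ 21 * t ^ 7 + 14105 * s ^ 16 * t ^ 12 + 3640 * s ^ 11 * t ^ 17 - 1365 * s ^ 6 * t ^ 22 - 14 * s * t ^ 27

/-- coefficient -/
def g3 (s t : ℂ) : ℂ :=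
  14 * s ^ 27 * t - 1365 * s ^ 22 * t ^ 6 - 3640 * s ^ 17 * t ^ 11 + 14105 * s ^ 12 * t ^ 16 - 1430 * s ^ 7 * t ^ 21 + 77 * s ^ 2 * t ^ 26

/-- coefficient -/
def g4 (s t : ℂ) : ℂ :=
  s ^ 28 - 910 * s ^ 23 * t ^ 5 - 10010 * s ^ 18 * t ^ 10 - 6930 * s ^ 13 * t ^ 15 + 5005 * s ^ 8 * t ^ 20 - 182 * s ^ 3 * t ^ 25

lemma icoE (u s t : ℂ) (hu : u ^ 5 = 1) : (u * s ^ 2 + s * t - u ^ 4 * t ^ 2) ^ 14 =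
    -15625 * s ^ 14 * t ^ 14 + g1 s t * u + g2 s t * u ^ 2 + g3 s t * u ^ 3 + g4 s t * u ^ 4 := by
  rw [show (u * s ^ 2 + s * t - u ^ 4 * t ^ 2) ^ 14 =
    ((u * s ^ 2 + s * t - u ^ 4 * t ^ 2) ^ 7) * ((u * s ^ 2 + s * t - u ^ 4 * t ^ 2) ^ 7) by
      rw [← pow_add], icoD u s t hu]
  unfold g1 g2 g3 g4
  linear_combination (49 * u ^ 3 * s ^ 22 * t ^ 6 + 1078 * u ^ 3 * s ^ 17 * t ^ 11 + 5831 * u ^ 3 * s ^ 12 * t ^ 16 - 1078 * u ^ 3 * s ^ 7 * t ^ 21 + 49 * u ^ 3 * s ^ 2 * t ^ 26 + 686 * u ^ 2 * s ^ 21 * t ^ 7 + 7742 * u ^ 2 * s ^ 16 * t ^ 12 + 1484 * u ^ 2 * s ^ 11 * t ^ 17 - 42 * u ^ 2 * s ^ 6 * t ^ 22 - 14 * u ^ 2 * s * t ^ 27 - 14 * u * s ^ 25 * t ^ 3 + 2443 * u * s ^ 20 * t ^ 8 + 2856 * u * s ^ 15 * t ^ 13 - 7448 * u * s ^ 10 * t ^ 18 + 714 * u * s ^ 5 * t ^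 23 + u * t ^ 28 - 196 * s ^ 24 * t ^ 4 - 812 * s ^ 19 * t ^ 9 - 16074 * s ^ 14 * t ^ 14 + 812 * s ^ 9 * t ^ 19 - 196 * s ^ 4 * t ^ 24) * hu

/-- The sum of the fourteenth powers over the fifth roots of unity. -/
lemma ico_sum (z s t : ℂ) (hz : z ^ 5 = 1) (hs : 1 + z + z ^ 2 + z ^ 3 + z ^ 4 = 0) :
    (s ^ 2 + s * t - t ^ 2) ^ 14 + (z * s ^ 2 + s * t - z ^ 4 * t ^ 2) ^ 14 +
      (z ^ 2 * s ^ 2 + s * t - z ^ 3 * t ^ 2) ^ 14 + (z ^ 3 * s ^ 2 + s * t - z ^ 2 * t ^ 2) ^ 14 +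
      (z ^ 4 * s ^ 2 + s * t - z * t ^ 2) ^ 14 = -78125 * (s * t) ^ 14 := by
  have h0 := icoE 1 s t (by norm_num)
  have h1 := icoE z s t hz
  have h2 := icoE (z ^ 2) s t (by rw [← pow_mul, mul_comm, pow_mul, hz, one_pow])
  have h3 := icoE (z ^ 3) s t (by rw [← pow_mul, mul_comm, pow_mul, hz, one_pow])
  have h4 := icoE (z ^ 4) s t (by rw [← pow_mul, mul_comm, pow_mul, hz, one_pow])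
  have e6 : z ^ 6 = z := by linear_combination z * hz
  have e8 : z ^ 8 = z ^ 3 := by linear_combination z ^ 3 * hz
  have e9 : z ^ 9 = z ^ 4 := by linear_combination z ^ 4 * hz
  have e12 : z ^ 12 = z ^ 2 := by linear_combination (z ^ 7 + z ^ 2) * hz
  have e16 : z ^ 16 = z := by linear_combination (z ^ 11 + z ^ 6 + z) * hz
  simp only [← pow_mul, one_pow, one_mul, mul_one] at h0 h2 h3 h4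
  norm_num at h2 h3 h4
  rw [e8, e6] at h2
  rw [e12, e6, e9] at h3
  rw [e16, e8, e12] at h4
  rw [h0, h1, h2, h3, h4]
  linear_combination (g1 s t + g2 s t + g3 s t + g4 s t) * hs

end Pool.Agent.V1163.Conic
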