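import Pool.Agent.V1163.Conic.Wr

set_option autoImplicit false

/-!
# Six polynomials of degree two, whose `d`-th powers have sum zero
-/

open Polynomial Finset

namespace Pool.Agent.V1163.Conic

open Pool.Agent.W515.SLP

variable {K : Type} [Field K]

lemma drop {n r : ℕ} (P : Fin n → K[X]) (i0 : Fin n) (e : Fin r → Fin n)
    (he : Function.Injective e) (hne : ∀ k, e k ≠ i0) (c : Fin r → K)
    (hc : P i0 = ∑ k, C (c k) * P (e k)) (k0 : Fin r) (hk : c k0 = 0) :
    ∃ r' < r, ∃ e : Fin r' → Fin n, Function.Injective e ∧ (∀ k, e k ≠ i0) ∧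
      ∃ c : Fin r' → K, P i0 = ∑ k, C (c k) * P (e k) := by
  cases r with
  | zero => exact k0.elim0
  | succ r' =>
    refine ⟨r', Nat.lt_succ_self _, e ∘ k0.succAbove, he.comp Fin.succAbove_right_injective,
      fun k => hne _, c ∘ k0.succAbove, ?_⟩
    rw [Fin.sum_univ_succAbove _ k0, hk, C_0, zero_mul, zero_add] at hc
    exact hc

lemma exists_min {n : ℕ} (P : Fin n → K[X]) (i0 : Fin n) (a : Fin n → K) (ha : a i0 ≠ 0)
    (hsum : ∑ i, C (a i) * P i = 0) :
    ∃ r : ℕ, ∃ e : Fin r → Fin n, Function.Injective e ∧ (∀ k, e k ≠ i0) ∧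
      (∃ c : Fin r → K, P i0 = ∑ k, C (c k) * P (e k)) ∧
      ∀ c : Fin r → K, P i0 = ∑ k, C (c k) * P (e k) → ∀ k, c k ≠ 0 := by
  classical
  have hex : ∃ r : ℕ, ∃ e : Fin r → Fin n, Function.Injective e ∧ (∀ k, e k ≠ i0) ∧
      ∃ c : Fin r → K, P i0 = ∑ k, C (c k) * P (e k) := by
    cases n with
    | zero => exact i0.elim0
    | succ m =>
      refine ⟨m, i0.succAbove, Fin.succAbove_right_injective, fun k => Fin.succAbove_ne i0 k,
        fun j => -(a i0)⁻¹ * a (i0.succAbove j), ?_⟩
      rw [Fin.sum_univ_succAbove _ i0] at hsum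
      have h1 : P i0 = C ((a i0)⁻¹) * (C (a i0) * P i0) := by
        rw [← mul_assoc, ← C_mul, inv_mul_cancel₀ ha, C_1, one_mul]
      rw [h1, eq_neg_of_add_eq_zero_left hsum, mul_neg, Finset.mul_sum, ← Finset.sum_neg_distrib]
      apply Finset.sum_congr rfl
      intro k _
      rw [C_mul, C_neg]
      ring
  obtain ⟨e, he, hne, hc⟩ := Nat.find_spec hex
  refine ⟨Nat.find hex, e, he, hne, hc, ?_⟩
  intro c hc k0 hk0
  obtain ⟨r', hr', h⟩ := drop P i0 e he hne c hc k0 hk0
  exact Nat.find_min hex hr' h

lemma indep_of_min {n r : ℕ} (P : Fin n → K[X]) (i0 : Fin n) (e : Fin r → Fin n)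
    (hc : ∃ c : Fin r → K, P i0 = ∑ k, C (c k) * P (e k))
    (hmin : ∀ c : Fin r → K, P i0 = ∑ k, C (c k) * P (e k) → ∀ k, c k ≠ 0) :
    LinearIndependent K fun k => P (e k) := by
  obtain ⟨c, hc⟩ := hc
  rw [Fintype.linearIndependent_iff]
  intro g hg k0
  by_contra hk0
  refine hmin (fun k => c k - c k0 / g k0 * g k) ?_ k0 ?_
  · have h1 : ∑ k, C (c k - c k0 / g k0 * g k) * P (e k) =
        ∑ k, C (c k) * P (e k) - C (c k0 / g k0) * ∑ k, g k • P (e k) := by
      rw [Finset.mul_sum, ← Finset.sum_sub_distrib]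
      apply Finset.sum_congr rfl
      intro k _
      rw [smul_eq_C_mul, C_sub, C_mul]
      ring
    rw [h1, hg, mul_zero, sub_zero]
    exact hc
  · show c k0 - c k0 / g k0 * g k0 = 0
    rw [div_mul_cancel₀ _ hk0, sub_self]

variable [CharZero K] [IsAlgClosed K]

/-- The Wronskian inequality for a minimal relation between `d`-th powers without common root. -/
lemma wr_ineq {r e d : ℕ} (q : Fin r → K[X]) (q0 : K[X]) (hq : ∀ j, (q j).natDegree = e)
    (hq0 : q0.natDegree = e) (hqne : ∀ j, q j ≠ 0) (hq0ne : q0 ≠ 0) (c : Fin r → K)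
    (hc : ∀ j, c j ≠ 0) (hrel : q0 ^ d = ∑ j, C (c j) * q j ^ d)
    (hli : LinearIndependent K fun j => q j ^ d)
    (hroot : ∀ a : K, q0.eval a ≠ 0 ∨ ∃ j, (q j).eval a ≠ 0) :
    (d - (r - 1)) * ((r + 1) * e) + r * (r - 1) ≤ r * (e * d) := by
  classical
  set W := (wmat fun j => q j ^ d).det with hW
  have hW0 : W ≠ 0 := wmat_det_ne_zero _ hli
  have hdeg : W.natDegree + r * (r - 1) ≤ r * (e * d) := by
    apply natDegree_wmat_det_sharp _ _ _ hW0
    intro j
    rw [natDegree_pow, hq j, mul_comm]
  set m := d - (r - 1) with hm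
  set P := (q0 * ∏ j, q j) ^ m with hP
  have hP0 : P ≠ 0 := pow_ne_zero _ (mul_ne_zero hq0ne (Finset.prod_ne_zero_iff.2 fun j _ => hqne j))
  have hPdeg : P.natDegree = m * ((r + 1) * e) := by
    rw [hP, natDegree_pow, natDegree_mul hq0ne (Finset.prod_ne_zero_iff.2 fun j _ => hqne j),
      natDegree_prod _ _ fun j _ => hqne j, hq0, Finset.sum_congr rfl fun j _ => hq j,
      Finset.sum_const, Finset.card_univ, Fintype.card_fin, smul_eq_mul]
    ring
  have hle : P.roots ≤ W.roots := by
    rw [Multiset.le_iff_count]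
    intro a
    rw [count_roots, count_roots]
    apply (le_rootMultiplicity_iff hW0).2
    have hcount : rootMultiplicity a P =
        m * (rootMultiplicity a q0 + ∑ j, rootMultiplicity a (q j)) := by
      rw [hP, ← count_roots, roots_pow, Multiset.count_nsmul, count_roots,
        rootMultiplicity_mul (mul_ne_zero hq0ne (Finset.prod_ne_zero_iff.2 fun j _ => hqne j))]
      congr 2
      have : ∀ s : Finset (Fin r), rootMultiplicity a (∏ j ∈ s, q j) =
          ∑ j ∈ s, rootMultiplicity a (q j) := by
        intro s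
        induction s using Finset.induction_on with
        | empty =>
          rw [Finset.prod_empty, Finset.sum_empty]
          exact rootMultiplicity_eq_zero (by rw [IsRoot.def, eval_one]; exact one_ne_zero)
        | insert j s hj ih =>
          rw [Finset.prod_insert hj, Finset.sum_insert hj, rootMultiplicity_mul, ih]
          exact mul_ne_zero (hqne j) (Finset.prod_ne_zero_iff.2 fun j _ => hqne j)
      exact this _
    rw [hcount]
    rcases hroot a with h | ⟨j0, h⟩
    · have h0 : rootMultiplicity a q0 = 0 := rootMultiplicity_eq_zero h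
      rw [h0, zero_add, Finset.mul_sum]
      exact pow_dvd_wmat_pow q d (X - C a) (fun j => rootMultiplicity a (q j))
        fun j => pow_rootMultiplicity_dvd _ _
    · have h0 : rootMultiplicity a (q j0) = 0 := rootMultiplicity_eq_zero h
      set q' := Function.update q j0 q0 with hq'
      have h1 := pow_dvd_wmat_pow q' d (X - C a) (fun j => rootMultiplicity a (q' j))
        fun j => pow_rootMultiplicity_dvd _ _
      have h2 : (fun j => q' j ^ d) =
          Function.update (fun j => q j ^ d) j0 (∑ j, C (c j) * q j ^ d) := by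
        funext j
        by_cases hj : j = j0
        · subst hj
          rw [Function.update_self, hq', Function.update_self, hrel]
        · rw [Function.update_of_ne hj, hq', Function.update_of_ne hj]
      rw [h2, wmat_update] at h1
      have hu : IsUnit (C (c j0)) := isUnit_C.2 (isUnit_iff_ne_zero.2 (hc j0))
      have h3 := (hu.dvd_mul_left).1 h1
      refine dvd_trans (pow_dvd_pow _ ?_) h3
      rw [← Finset.mul_sum]
      apply Nat.mul_le_mul_left
      rw [← Finset.add_sum_erase Finset.univ (fun j => rootMultiplicity a (q j))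
          (Finset.mem_univ j0),
        ← Finset.add_sum_erase Finset.univ (fun j => rootMultiplicity a (q' j))
          (Finset.mem_univ j0), h0, zero_add, hq', Function.update_self]
      apply Nat.add_le_add_left
      apply le_of_eq
      apply Finset.sum_congr rfl
      intro j hj
      rw [Function.update_of_ne (Finset.ne_of_mem_erase hj)]
  have h1 : P.natDegree ≤ W.natDegree := by
    rw [(IsAlgClosed.splits P).natDegree_eq_card_roots]
    exact (Multiset.card_le_card hle).trans (card_roots' W)
  rw [hPdeg] at h1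
  omega

/-- no minimal relation of at most six terms between the powers of polynomials of degree at most
two with exponent at least fifteen -/
lemma no_relation {r d : ℕ} (hr : 2 ≤ r) (hr5 : r ≤ 5) (hd : 15 ≤ d) : ∀ e ≤ 2,
    ∀ (q : Fin r → K[X]) (q0 : K[X]), (∀ j, (q j).natDegree = e) → q0.natDegree = e →
    (∀ j, q j ≠ 0) → q0 ≠ 0 → ∀ c : Fin r → K, (∀ j, c j ≠ 0) →
    q0 ^ d = ∑ j, C (c j) * q j ^ d → (LinearIndependent K fun j => q j ^ d) → False := by
  intro e
  induction e with
  | zero =>
    intro _ q q0 hq _ hqne _ c hc _ hli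
    obtain ⟨x, hx⟩ := natDegree_eq_zero.1 (hq ⟨0, by omega⟩)
    obtain ⟨y, hy⟩ := natDegree_eq_zero.1 (hq ⟨1, by omega⟩)
    have hx0 : x ≠ 0 := by
      rintro rfl
      exact hqne ⟨0, by omega⟩ (by rw [← hx, C_0])
    have hy0 : y ≠ 0 := by
      rintro rfl
      exact hqne ⟨1, by omega⟩ (by rw [← hy, C_0])
    have h2 := (LinearIndependent.pair_iff.1
      (hli.comp ![(⟨0, by omega⟩ : Fin r), ⟨1, by omega⟩] (by
        intro a b hab
        fin_cases a <;> fin_cases b <;> simp at hab ⊢) |> fun h => by
          have h' : LinearIndependent K ![q ⟨0, by omega⟩ ^ d, q ⟨1, by omega⟩ ^ d] := by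
            convert h using 1
            funext i
            fin_cases i <;> rfl
          exact h')) (y ^ d) (-(x ^ d)) (by
            rw [← hx, ← hy, smul_eq_C_mul, smul_eq_C_mul, ← C_pow, ← C_pow, ← C_mul, ← C_mul,
              ← C_add]
            rw [show y ^ d * x ^ d + -x ^ d * y ^ d = 0 by ring, C_0])
    exact pow_ne_zero _ hy0 h2.1
  | succ e ih =>
    intro he q q0 hq hq0 hqne hq0ne c hc hrel hli
    by_cases hroot : ∀ a : K, q0.eval a ≠ 0 ∨ ∃ j, (q j).eval a ≠ 0
    · have h1 := wr_ineq q q0 hq hq0 hqne hq0ne c hc hrel hli hroot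
      have h2 : r = 2 ∨ r = 3 ∨ r = 4 ∨ r = 5 := by omega
      have h3 : e = 0 ∨ e = 1 := by omega
      rcases h2 with rfl | rfl | rfl | rfl <;> rcases h3 with rfl | rfl <;> omega
    · push Not at hroot
      obtain ⟨a, ha0, ha⟩ := hroot
      have hdv : ∀ j, ∃ k, q j = (X - C a) * k := fun j => dvd_iff_isRoot.2 (ha j)
      choose k hk using hdv
      obtain ⟨k0, hk0⟩ : (X - C a) ∣ q0 := dvd_iff_isRoot.2 ha0
      have hkne : ∀ j, k j ≠ 0 := by
        intro j h
        exact hqne j (by rw [hk j, h, mul_zero])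
      have hk0ne : k0 ≠ 0 := by
        intro h
        exact hq0ne (by rw [hk0, h, mul_zero])
      have hXa : (X - C a : K[X]) ≠ 0 := X_sub_C_ne_zero a
      refine ih (by omega) k k0 ?_ ?_ hkne hk0ne c hc ?_ ?_
      · intro j
        have := hq j
        rw [hk j, natDegree_mul hXa (hkne j), natDegree_X_sub_C] at this
        omega
      · have := hq0
        rw [hk0, natDegree_mul hXa hk0ne, natDegree_X_sub_C] at this
        omega
      · apply mul_left_cancel₀ (pow_ne_zero d hXa)
        rw [← mul_pow, ← hk0, hrel, Finset.mul_sum]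
        apply Finset.sum_congr rfl
        intro j _
        rw [hk j, mul_pow]
        ring
      · rw [Fintype.linearIndependent_iff] at hli ⊢
        intro g hg
        apply hli g
        have : ∑ i, g i • q i ^ d = (X - C a) ^ d * ∑ i, g i • k i ^ d := by
          rw [Finset.mul_sum]
          apply Finset.sum_congr rfl
          intro i _
          rw [hk i, mul_pow, smul_eq_C_mul, smul_eq_C_mul]
          ring
        rw [this, hg, mul_zero]

/-- The main bound: six polynomials of degree two, no two of them proportional, do not satisfy a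
linear relation between their `d`-th powers with nonzero coefficients, if `d ≥ 15`. -/
theorem no_six {d : ℕ} (hd : 15 ≤ d) (p : Fin 6 → K[X]) (hp : ∀ i, (p i).natDegree = 2)
    (hprop : ∀ i j, i ≠ j → ∀ a b : K, C a * p i = C b * p j → a = 0)
    (a : Fin 6 → K) (ha : ∀ i, a i ≠ 0) (hsum : ∑ i, C (a i) * p i ^ d = 0) : False := by
  have hpne : ∀ i, p i ≠ 0 := by
    intro i h
    have := hp i
    rw [h, natDegree_zero] at this
    omega
  obtain ⟨r, e, he, hne, hc, hmin⟩ := exists_min (fun i => p i ^ d) 0 a (ha 0) hsum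
  have hli := indep_of_min (fun i => p i ^ d) 0 e hc hmin
  obtain ⟨c, hc⟩ := hc
  have hc0 := hmin c hc
  have hr5 : r ≤ 5 := by
    have h1 : Function.Injective (fun o : Option (Fin r) => o.elim (0 : Fin 6) e) := by
      rintro (_ | x) (_ | y) hxy
      · rfl
      · exact absurd hxy.symm (hne y)
      · exact absurd hxy (hne x)
      · exact congrArg some (he hxy)
    have := Fintype.card_le_of_injective _ h1
    rw [Fintype.card_option, Fintype.card_fin, Fintype.card_fin] at this
    omega
  have hr2 : 2 ≤ r := by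
    by_contra h
    have h1 : r = 0 ∨ r = 1 := by omega
    rcases h1 with h1 | h1
    · subst h1
      rw [Finset.univ_eq_empty, Finset.sum_empty] at hc
      exact pow_ne_zero d (hpne 0) hc
    · subst h1
      rw [Fin.sum_univ_one] at hc
      -- the two polynomials are proportional
      obtain ⟨w, hw⟩ := IsAlgClosed.exists_pow_nat_eq (c 0) (n := d) (by omega)
      have h2 : p 0 ^ d = (C w * p (e 0)) ^ d := by
        rw [mul_pow, ← C_pow, hw, hc]
      have hw0 : w ≠ 0 := by
        rintro rfl
        rw [zero_pow (by omega)] at hw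
        exact hc0 0 hw.symm
      have h3 : p 0 ∣ C w * p (e 0) := by
        rw [← UniqueFactorizationMonoid.pow_dvd_pow_iff_dvd (by omega : d ≠ 0), ← h2]
      have h4 : C w * p (e 0) ∣ p 0 := by
        rw [← UniqueFactorizationMonoid.pow_dvd_pow_iff_dvd (by omega : d ≠ 0), ← h2]
      obtain ⟨u, hu⟩ := associated_of_dvd_dvd h3 h4
      obtain ⟨x, hx, hxu⟩ := Polynomial.isUnit_iff.1 u.isUnit
      refine hx.ne_zero (hprop 0 (e 0) (hne 0).symm x w ?_)
      rw [← hu, ← hxu, mul_comm]
  exact no_relation hr2 hr5 hd 2 le_rfl (fun j => p (e j)) (p 0) (fun j => hp _) (hp 0)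
    (fun j => hpne _) (hpne 0) c hc0 hc hli

end Pool.Agent.V1163.Conic
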