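import Pool.Agent.W515.SLP.Wron

set_option autoImplicit false

/-!
# Linear relations between powers of polynomials of degree at most two
-/

open Polynomial Finset

namespace Pool.Agent.V1163.Conic

open Pool.Agent.W515.SLP

variable {k : Type*} [Field k] [CharZero k]

/-- distinct natural numbers bounded by `D` -/
lemma sum_distinct {r : ℕ} (n : Fin r → ℕ) (hn : Function.Injective n) (D : ℕ)
    (hD : ∀ i, n i ≤ D) : 2 * ∑ i, n i + r * (r - 1) ≤ 2 * (r * D) := by
  classical
  have h1 : ∑ i : Fin r, (i : ℕ) ≤ ∑ i : Fin r, (D - n i) := by
    have hinj : Function.Injective (fun i => D - n i) := by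
      intro i j hij
      apply hn
      have := hD i
      have := hD j
      simp only at hij
      omega
    set s : Finset ℕ := univ.image (fun i => D - n i) with hs
    have hcard : s.card = r := by
      rw [hs, Finset.card_image_of_injective _ hinj, Finset.card_univ, Fintype.card_fin]
    have h2 : ∑ i : Fin r, (D - n i) = ∑ x ∈ s, x := by
      rw [hs, Finset.sum_image (fun i _ j _ h => hinj h)]
    rw [h2]
    have h3 : ∑ x ∈ s, x = ∑ i : Fin r, ((s.orderEmbOfFin hcard) i : ℕ) := by
      conv_lhs => rw [← Finset.image_orderEmbOfFin_univ s hcard]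
      rw [Finset.sum_image (fun i _ j _ h => (s.orderEmbOfFin hcard).injective h)]
    rw [h3]
    apply Finset.sum_le_sum
    intro i _
    have hsm : StrictMono (fun i : Fin r => ((s.orderEmbOfFin hcard) i : ℕ)) :=
      (s.orderEmbOfFin hcard).strictMono
    have : ∀ m : ℕ, ∀ hm : m < r, m ≤ (s.orderEmbOfFin hcard) ⟨m, hm⟩ := by
      intro m
      induction m with
      | zero => intro _; exact Nat.zero_le _
      | succ m ih =>
        intro hm
        have h4 := ih (by omega)
        have h5 := hsm (show (⟨m, by omega⟩ : Fin r) < ⟨m + 1, hm⟩ from by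
          rw [Fin.lt_def]; exact Nat.lt_succ_self m)
        simp only at h5
        omega
    exact this i i.2
  have h2 : ∑ i : Fin r, (D - n i) + ∑ i, n i = r * D := by
    rw [← Finset.sum_add_distrib]
    rw [Finset.sum_congr rfl (fun i _ => Nat.sub_add_cancel (hD i))]
    simp
  have h3 : (∑ i : Fin r, (i : ℕ)) * 2 = r * (r - 1) := by
    rw [Fin.sum_univ_eq_sum_range (fun i => i) r]
    exact Finset.sum_range_id_mul_two r
  omega

/-- degree of the Wronskian when all degrees are bounded individually -/
lemma natDegree_wmat_det_sum {r : ℕ} (f : Fin r → k[X]) :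
    (wmat f).det = 0 ∨ 2 * (wmat f).det.natDegree + r * (r - 1) ≤ 2 * ∑ j, (f j).natDegree := by
  classical
  by_cases hW : (wmat f).det = 0
  · exact Or.inl hW
  right
  have h1 : (wmat f).det.coeff (wmat f).det.natDegree ≠ 0 := by
    rw [coeff_natDegree]
    exact leadingCoeff_ne_zero.2 hW
  set N := (wmat f).det.natDegree with hN
  rw [Matrix.det_apply, finsetSum_coeff] at h1
  obtain ⟨σ, -, h2⟩ := Finset.exists_ne_zero_of_sum_ne_zero h1
  have h3 : (∏ i, (wmat f) (σ i) i).coeff N ≠ 0 := by
    rcases Int.units_eq_one_or (Equiv.Perm.sign σ) with h | h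
    · rw [h, one_smul] at h2
      exact h2
    · rw [h] at h2
      intro h4
      apply h2
      rw [Units.neg_smul, one_smul, coeff_neg, h4, neg_zero]
  have h4 : N ≤ ∑ i, ((wmat f) (σ i) i).natDegree :=
    (le_natDegree_of_ne_zero h3).trans (natDegree_prod_le _ _)
  have h5 : ∀ i, (wmat f) (σ i) i ≠ 0 := by
    intro i h
    apply h3
    have h4 : ∏ i, (wmat f) (σ i) i = 0 :=
      Finset.prod_eq_zero (f := fun i => (wmat f) (σ i) i) (Finset.mem_univ i) h
    exact (congrArg (fun p : k[X] => p.coeff N) h4).trans (coeff_zero N)
  have h6 : ∀ i, ((wmat f) (σ i) i).natDegree + ((σ i : Fin r) : ℕ) ≤ (f i).natDegree := by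
    intro i
    have h7 : ((wmat f) (σ i) i).natDegree ≤ (f i).natDegree - ((σ i : Fin r) : ℕ) := by
      simp only [wmat, Matrix.of_apply]
      exact natDegree_iterate_derivative _ _
    have h8 : ((σ i : Fin r) : ℕ) ≤ (f i).natDegree := by
      by_contra hlt
      push Not at hlt
      apply h5 i
      simp only [wmat, Matrix.of_apply]
      exact iterate_derivative_eq_zero hlt
    omega
  have h9 : ∑ i, ((wmat f) (σ i) i).natDegree + ∑ i, ((σ i : Fin r) : ℕ) ≤
      ∑ i, (f i).natDegree := by
    rw [← Finset.sum_add_distrib]
    exact Finset.sum_le_sum fun i _ => h6 i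
  have h10 : ∑ i, ((σ i : Fin r) : ℕ) = ∑ i : Fin r, (i : ℕ) :=
    Equiv.sum_comp σ (fun i : Fin r => (i : ℕ))
  have h11 : (∑ i : Fin r, (i : ℕ)) * 2 = r * (r - 1) := by
    rw [Fin.sum_univ_eq_sum_range (fun i => i) r]
    exact Finset.sum_range_id_mul_two r
  omega

/-- subtracting a multiple of a column from another one -/
lemma wmat_sub {r : ℕ} (f : Fin r → k[X]) (i j : Fin r) (hij : i ≠ j) (c : k) :
    (wmat (Function.update f i (f i - C c * f j))).det = (wmat f).det := by
  classical
  have h := wmat_update f (fun l => if l = i then 1 else if l = j then -c else 0) i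
  rw [if_pos rfl, C_1, one_mul] at h
  rw [← h]
  congr 3
  rw [← Finset.add_sum_erase _ _ (Finset.mem_univ i), if_pos rfl, C_1, one_mul,
    Finset.sum_eq_single_of_mem j (Finset.mem_erase.2 ⟨hij.symm, Finset.mem_univ _⟩)]
  · rw [if_neg hij.symm, if_pos rfl, C_neg]
    ring
  · intro l hl hlj
    rw [if_neg (Finset.mem_erase.1 hl).1, if_neg hlj, C_0, zero_mul]

/-- The degree of the Wronskian of polynomials of degree at most `D`. -/
lemma natDegree_wmat_det_sharp {r : ℕ} (f : Fin r → k[X]) (D : ℕ)
    (hD : ∀ j, (f j).natDegree ≤ D) (hW : (wmat f).det ≠ 0) :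
    (wmat f).det.natDegree + r * (r - 1) ≤ r * D := by
  classical
  -- induction on the sum of the degrees
  have key : ∀ N : ℕ, ∀ f : Fin r → k[X], (∀ j, (f j).natDegree ≤ D) → (wmat f).det ≠ 0 →
      ∑ j, (f j).natDegree ≤ N → (wmat f).det.natDegree + r * (r - 1) ≤ r * D := by
    intro N
    induction N with
    | zero =>
      intro f hD hW hN
      rcases natDegree_wmat_det_sum f with h | h
      · exact absurd h hW
      · by_cases hinj : Function.Injective (fun j => (f j).natDegree)
        · have := sum_distinct _ hinj D hD
          omega
        · exfalso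
          -- all degrees are zero and there are two columns
          have hz : ∀ j, (f j).natDegree = 0 := by
            intro j
            have := Finset.single_le_sum (f := fun j => (f j).natDegree)
              (fun _ _ => Nat.zero_le _) (Finset.mem_univ j)
            omega
          rw [Function.Injective] at hinj
          push Not at hinj
          obtain ⟨a, b, _, hab⟩ := hinj
          have h2 : 2 ≤ r := by
            by_contra hlt
            apply hab
            ext
            have := a.2
            have := b.2
            omega
          have h3 : r * (r - 1) ≠ 0 := Nat.mul_ne_zero (by omega) (by omega)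
          rw [Finset.sum_congr rfl fun j _ => hz j] at h
          simp at h
          omega
    | succ N ih =>
      intro f hD hW hN
      by_cases hinj : Function.Injective (fun j => (f j).natDegree)
      · have h1 := sum_distinct _ hinj D hD
        rcases natDegree_wmat_det_sum f with h | h
        · exact absurd h hW
        · omega
      · rw [Function.Injective] at hinj
        push Not at hinj
        obtain ⟨a, b, hab, hne⟩ := hinj
        -- no column is zero
        have hf0 : ∀ j, f j ≠ 0 := by
          intro j hj
          apply hW
          apply Matrix.det_eq_zero_of_column_eq_zero j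
          intro i
          simp only [wmat, Matrix.of_apply, hj, iterate_map_zero]
        by_cases hd0 : (f a).natDegree = 0
        · exfalso
          obtain ⟨x, hx⟩ := natDegree_eq_zero.1 hd0
          obtain ⟨y, hy⟩ := natDegree_eq_zero.1 (hab ▸ hd0)
          have hx0 : x ≠ 0 := by
            rintro rfl
            exact hf0 a (by rw [← hx, C_0])
          have h3 := wmat_sub f b a hne.symm (y / x)
          apply hW
          rw [← h3]
          apply Matrix.det_eq_zero_of_column_eq_zero b
          intro i
          simp only [wmat, Matrix.of_apply, Function.update_self]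
          rw [← hx, ← hy, ← C_mul, div_mul_cancel₀ _ hx0, sub_self, iterate_map_zero]
        · -- reduce the degree of column `a`
          set c := (f a).leadingCoeff / (f b).leadingCoeff with hc
          have hlb : (f b).leadingCoeff ≠ 0 := leadingCoeff_ne_zero.2 (hf0 b)
          have h4 : (f a - C c * f b).natDegree < (f a).natDegree := by
            have hc0 : c ≠ 0 := div_ne_zero (leadingCoeff_ne_zero.2 (hf0 a)) hlb
            have h5 : (C c * f b).natDegree = (f a).natDegree := by
              rw [natDegree_C_mul hc0]; exact hab.symm
            have h6 : (f a).leadingCoeff = (C c * f b).leadingCoeff := by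
              rw [leadingCoeff_mul, leadingCoeff_C, hc, div_mul_cancel₀ _ hlb]
            by_cases h7 : f a - C c * f b = 0
            · rw [h7, natDegree_zero]; omega
            · have h8 : (f a - C c * f b).degree < (f a).degree := by
                apply degree_sub_lt _ (hf0 a) h6
                rw [degree_eq_natDegree (hf0 a), degree_eq_natDegree, h5]
                exact mul_ne_zero (C_ne_zero.2 hc0) (hf0 b)
              exact (natDegree_lt_natDegree_iff h7).2 h8
          have h5 := wmat_sub f a b hne c
          rw [← h5]
          apply ih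
          · intro j
            by_cases hj : j = a
            · subst hj
              rw [Function.update_self]
              exact h4.le.trans (hD _)
            · rw [Function.update_of_ne hj]
              exact hD j
          · rw [h5]; exact hW
          · have h6 : ∑ j, (Function.update f a (f a - C c * f b) j).natDegree <
                ∑ j, (f j).natDegree := by
              apply Finset.sum_lt_sum
              · intro j _
                by_cases hj : j = a
                · subst hj
                  rw [Function.update_self]
                  exact h4.le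
                · rw [Function.update_of_ne hj]
              · refine ⟨a, Finset.mem_univ _, ?_⟩
                rw [Function.update_self]
                exact h4
            omega
  exact key _ f hD hW le_rfl

/-- columns divisible by powers -/
lemma pow_dvd_det {r : ℕ} (M : Matrix (Fin r) (Fin r) k[X]) (q : k[X]) (n : Fin r → ℕ)
    (h : ∀ i j, q ^ (n j) ∣ M i j) : q ^ (∑ j, n j) ∣ M.det := by
  rw [Matrix.det_apply]
  apply Finset.dvd_sum
  intro σ _
  have h6 : q ^ (∑ j, n j) ∣ ∏ i, M (σ i) i := by
    rw [← Finset.prod_pow_eq_pow_sum]
    exact Finset.prod_dvd_prod_of_dvd _ _ fun j _ => h _ _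
  rcases Int.units_eq_one_or (Equiv.Perm.sign σ) with h | h
  · rw [h, one_smul]; exact h6
  · rw [h]
    simpa using h6

/-- The Wronskian of `d`-th powers. -/
lemma pow_dvd_wmat_pow {r : ℕ} (p : Fin r → k[X]) (d : ℕ) (q : k[X]) (n : Fin r → ℕ)
    (hn : ∀ j, q ^ (n j) ∣ p j) : q ^ (∑ j, (d - (r - 1)) * n j) ∣ (wmat fun j => p j ^ d).det := by
  apply pow_dvd_det
  intro i j
  simp only [wmat, Matrix.of_apply]
  have h1 : q ^ (n j * d) ∣ p j ^ d := by
    rw [pow_mul]
    exact pow_dvd_pow_of_dvd (hn j) d
  refine dvd_trans ?_ (pow_sub_dvd_iterate_derivative_of_pow_dvd (i : ℕ) h1)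
  apply pow_dvd_pow
  have h2 := i.2
  rcases Nat.eq_zero_or_pos (n j) with h3 | h3
  · rw [h3]; simp
  · have h4 : r - 1 ≤ (r - 1) * n j := Nat.le_mul_of_pos_right _ h3
    rw [Nat.sub_mul, mul_comm (n j) d]
    omega

end Pool.Agent.V1163.Conic
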